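import Pool.Agent.H30.KZS.Defs
import Pool.Agent.H30.KZS.Old

/-!
The new definitions follow from those of `Pool.Agent.H26.KoszulDefs`.
-/

open TensorProduct CategoryTheory Opposite

universe u

namespace KZS

open Pool.Agent.H26.Koszul (QuadAlg QuadRel mulTwo gen aug)

section

variable {k V : Type u} [Field k] [AddCommGroup V] [Module k V]

/-- The element of `V ⊗ V` given by a list. -/
noncomputable def tens (k : Type u) {V : Type u} [Field k] [AddCommGroup V] [Module k V]
    (l : List (V × V)) : V ⊗[k] V :=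
  (l.map fun p => p.1 ⊗ₜ[k] p.2).sum

theorem exists_tens (r : V ⊗[k] V) : ∃ l : List (V × V), tens k l = r := by
  induction r using TensorProduct.induction_on with
  | zero => exact ⟨[], rfl⟩
  | tmul v w => exact ⟨[(v, w)], by simp [tens]⟩
  | add x y hx hy =>
    obtain ⟨l, hl⟩ := hx
    obtain ⟨l', hl'⟩ := hy
    exact ⟨l ++ l', by simp [tens, ← hl, ← hl']⟩

theorem lift_mulTwo {B : Type u} [Ring B] [Algebra k B] (h : V →ₗ[k] B) (l : List (V × V)) :
    TensorAlgebra.lift k h (mulTwo k V (tens k l)) = ev h l := by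
  induction l with
  | nil => simp [tens, ev]
  | cons p l ih =>
    have e1 : tens k (p :: l) = p.1 ⊗ₜ[k] p.2 + tens k l := by simp [tens]
    have e2 : ev h (p :: l) = h p.1 * h p.2 + ev h l := by simp [ev]
    rw [e1, e2, map_add, map_add, ih]
    congr 1
    change TensorAlgebra.lift k h (TensorAlgebra.ι k p.1 * TensorAlgebra.ι k p.2) = _
    rw [map_mul, TensorAlgebra.lift_ι_apply, TensorAlgebra.lift_ι_apply]

theorem gen_eq (R : Submodule k (V ⊗[k] V)) (l : List (V × V)) :
    ev (gen R) l = RingQuot.mkAlgHom k (QuadRel R) (mulTwo k V (tens k l)) := by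
  have e : (RingQuot.mkAlgHom k (QuadRel R)) = TensorAlgebra.lift k (gen R) := by
    apply TensorAlgebra.hom_ext
    ext v
    simp [gen]
  rw [e]
  exact (lift_mulTwo (gen R) l).symm

theorem isQuadratic (R : Submodule k (V ⊗[k] V)) : IsQuadratic k (fun v => gen R v) := by
  refine ⟨⟨map_add (gen R), map_smul (gen R)⟩, {l | tens k l ∈ R}, ?_, ?_⟩
  · intro l hl
    have h1 := gen_eq R l
    have h2 : RingQuot.mkAlgHom k (QuadRel R) (mulTwo k V (tens k l)) = 0 := by
      rw [RingQuot.mkAlgHom_rel k (show QuadRel R (mulTwo k V (tens k l)) 0 from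
        ⟨tens k l, hl, rfl, rfl⟩), map_zero]
    exact h1.trans h2
  · intro B _ _ h hh hl
    let h' : V →ₗ[k] B := IsLinearMap.mk' h hh
    have key : ∀ ⦃a b : TensorAlgebra k V⦄, QuadRel R a b →
        TensorAlgebra.lift k h' a = TensorAlgebra.lift k h' b := by
      rintro a b ⟨r, hr, rfl, rfl⟩
      obtain ⟨l, rfl⟩ := exists_tens r
      rw [lift_mulTwo, map_zero]
      exact hl l hr
    refine ⟨RingQuot.liftAlgHom k ⟨TensorAlgebra.lift k h', key⟩, ?_, ?_⟩
    · intro v
      change RingQuot.liftAlgHom k _ (RingQuot.mkAlgHom k (QuadRel R) (TensorAlgebra.ι k v)) = _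
      rw [RingQuot.liftAlgHom_mkAlgHom_apply, TensorAlgebra.lift_ι_apply]
      rfl
    · intro φ hφ
      apply RingQuot.ringQuot_ext'
      apply TensorAlgebra.hom_ext
      ext v
      change φ (gen R v) = RingQuot.liftAlgHom k _ (RingQuot.mkAlgHom k (QuadRel R) (TensorAlgebra.ι k v))
      rw [RingQuot.liftAlgHom_mkAlgHom_apply, TensorAlgebra.lift_ι_apply]
      exact hφ v

theorem comb_eq {A : Type u} [Ring A] {B C : Type} [Fintype C] (D : C → B → A) (f : C → A) :
    comb D f = Fintype.linearCombination A D f := by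
  funext b
  simp [comb, Fintype.linearCombination_apply, Finset.sum_apply]

theorem hasLinRes {R : Submodule k (V ⊗[k] V)} (h : Pool.Agent.H26.Koszul.IsKoszul R) :
    HasLinRes (fun v => gen R v) (aug R) := by
  obtain ⟨B, i1, i2, D, h1, h2, h3⟩ := h
  refine ⟨B, i1, default, D, fun b => Subsingleton.elim _ _, ?_, ?_, ?_⟩
  · intro i c b
    obtain ⟨v, hv⟩ := h1 i c b
    exact ⟨v, hv⟩
  · intro f
    rw [← h2 f]
    constructor
    · rintro ⟨g, hg⟩
      exact ⟨g, (comb_eq (D 0) g).symm.trans hg⟩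
    · rintro ⟨g, hg⟩
      exact ⟨g, (comb_eq (D 0) g).trans hg⟩
  · intro i f
    have e : f ∈ LinearMap.range (Fintype.linearCombination (QuadAlg R) (D (i + 1))) ↔
        f ∈ LinearMap.ker (Fintype.linearCombination (QuadAlg R) (D i)) := by rw [h3 i]
    constructor
    · rintro ⟨g, hg⟩ b
      have e1 : f ∈ LinearMap.range (Fintype.linearCombination (QuadAlg R) (D (i + 1))) :=
        ⟨g, (comb_eq (D (i + 1)) g).symm.trans hg⟩
      have e2 := LinearMap.mem_ker.mp (e.mp e1)
      rw [← comb_eq] at e2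
      exact congrFun e2 b
    · intro hb
      have e1 : f ∈ LinearMap.ker (Fintype.linearCombination (QuadAlg R) (D i)) := by
        rw [LinearMap.mem_ker, ← comb_eq]
        exact funext hb
      obtain ⟨g, hg⟩ := e.mpr e1
      exact ⟨g, (comb_eq (D (i + 1)) g).trans hg⟩

theorem hasBetti {R : Submodule k (V ⊗[k] V)} {b : ℕ → ℕ}
    (h : Pool.Agent.H26.Koszul.HasBetti R b) : HasBetti (aug R) b := fun i => h i

theorem isKoszul [FiniteDimensional k V] {R : Submodule k (V ⊗[k] V)} {b : ℕ → ℕ}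
    (h1 : Pool.Agent.H26.Koszul.IsKoszul R) (h2 : Pool.Agent.H26.Koszul.HasBetti R b) :
    IsKoszul k (fun v => gen R v) b :=
  ⟨inferInstance, isQuadratic R, aug R, Pool.Agent.H26.Koszul.aug_gen R, hasLinRes h1, hasBetti h2⟩

end

theorem main (k : Type u) [Field k] (n : ℕ) (hn : 3 ≤ n) :
    ∃ (V A : Type u) (_ : AddCommGroup V) (_ : Module k V) (_ : Ring A) (_ : Algebra k A)
      (g : V → A) (b : ℕ → ℕ), IsKoszul k g b ∧
      b n ≠ 0 ∧ (∀ i, n < i → b i = 0) ∧ b 1 = 2 * n + 1 ∧ b 2 + 1 = 2 * n ^ 2 ∧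
      ((n : ℝ) - 1) / (2 * n) * (b 1 : ℝ) ^ 2 < (b 2 : ℝ) := by
  obtain ⟨V, i1, i2, i3, R, b, h1, h2, h3⟩ := old k n hn
  exact ⟨V, QuadAlg R, i1, i2, inferInstance, inferInstance, _, b, isKoszul h1 h2, h3⟩

end KZS
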