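import Mathlib

/-!
Definitions for the statement: quadratic algebras, Koszul algebras, Betti numbers.
-/

open CategoryTheory Opposite

universe u

namespace KZS

section

variable {k V A M : Type u} [Field k] [AddCommGroup V] [Module k V] [Ring A] [Algebra k A]
  [AddCommGroup M] [Module A M]

/-- The image in an algebra `A` of the element `∑ v ⊗ w` of `V ⊗ V`, where `(v, w)` runs through the
list `l`: the element `∑ h v * h w`. -/
def ev (h : V → A) (l : List (V × V)) : A := (l.map fun p => h p.1 * h p.2).sum

variable (k) in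
/-- `A`, with the linear map `g : V → A`, is the quadratic algebra `T(V)/(R)`, the quotient of the
tensor algebra by the ideal generated by a set `R` of elements of `V ⊗ V` (given as lists of pairs,
see `ev`): the relations `R` hold in `A`, and every linear map `h` from `V` to a `k`-algebra `B` in which
they hold too extends to exactly one homomorphism of algebras `A → B`. -/
def IsQuadratic (g : V → A) : Prop :=
  IsLinearMap k g ∧ ∃ R : Set (List (V × V)), (∀ l ∈ R, ev g l = 0) ∧
    ∀ (B : Type u) [Ring B] [Algebra k B] (h : V → B), IsLinearMap k h → (∀ l ∈ R, ev h l = 0) →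
      ∃! φ : A →ₐ[k] B, ∀ v, φ (g v) = h v

/-- The map of left modules `A^C → A^B` given by a matrix, `f ↦ ∑ c, f c * D c`. -/
def comb {B C : Type} [Fintype C] (D : C → B → A) (f : C → A) (b : B) : A := ∑ c, f c * D c b

/-- The trivial module `k` has a linear free resolution `... → A^(B 2) → A^(B 1) → A^(B 0) = A → k → 0`,
that is, the matrices `D i` of the differentials have all their entries in the image `A_1` of `g`, the
image of `D 0` is the kernel of the augmentation `ε` and the image of `D (i+1)` is the kernel of `D i`. -/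
def HasLinRes (g : V → A) (ε : A →ₐ[k] k) : Prop :=
  ∃ (B : ℕ → Type) (_ : ∀ i, Fintype (B i)) (o : B 0) (D : ∀ i, B (i + 1) → B i → A),
    (∀ b, b = o) ∧ (∀ i c b, ∃ v, g v = D i c b) ∧
    (∀ f : B 0 → A, (∃ h, comb (D 0) h = f) ↔ ε (f o) = 0) ∧
    ∀ i (f : B (i + 1) → A), (∃ h, comb (D (i + 1)) h = f) ↔ ∀ b, comb (D i) f b = 0

variable (k A M) in
/-- `dim_k Ext^i_A(M, M)` (the `Ext` of Mathlib, for left modules). -/
noncomputable def extDim (i : ℕ) : Cardinal.{u} :=
  Module.rank k (((Ext k (ModuleCat.{u} A) i).obj (op (ModuleCat.of A M))).obj (ModuleCat.of A M))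

/-- `dim_k Ext^i_A(k, k) = b i` for all `i`, where `a` acts on `k` by multiplication by `ε a`. -/
def HasBetti (ε : A →ₐ[k] k) (b : ℕ → ℕ) : Prop :=
  letI : Module A k := Module.compHom k ε.toRingHom
  ∀ i, extDim k A k i = b i

variable (k) in
/-- `A`, with `g : V → A`, is a Koszul algebra with Betti numbers `b i`. -/
def IsKoszul (g : V → A) (b : ℕ → ℕ) : Prop :=
  FiniteDimensional k V ∧ IsQuadratic k g ∧
    ∃ ε : A →ₐ[k] k, (∀ v, ε (g v) = 0) ∧ HasLinRes g ε ∧ HasBetti ε b

end

end KZS
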